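import Mathlib

set_option autoImplicit false

/-!
A smooth, radially decreasing, affine nonlinearity on the unit ball of three-space for which the
value at the centre does not determine the solution pair.
-/

namespace Pool.Agent.Results.MP_eab5ac_an.NotGlobalParameter

open Finset

/-- `u` is a positive classical solution of `u'' + ((n-1)/r) u' + lam f(r,u) = 0` on `(0,1)`,
`u'(0) = u(1) = 0`, `u > 0` on `[0,1)`. -/
def IsPositiveSolution (n : ℝ) (f : ℝ → ℝ → ℝ) (lam : ℝ) (u : ℝ → ℝ) : Prop :=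
  ContDiff ℝ 2 u ∧ deriv u 0 = 0 ∧ u 1 = 0 ∧ (∀ r, 0 ≤ r → r < 1 → 0 < u r) ∧
    ∀ r, 0 < r → r < 1 → deriv (deriv u) r + (n - 1) / r * deriv u r + lam * f r (u r) = 0

section proofs

/-- the base variable `1 + 7 r^2` -/
noncomputable def z (r : ℝ) : ℝ := 1 + 7 * r ^ 2

theorem z_pos (r : ℝ) : 0 < z r := by unfold z; positivity

theorem hasDerivAt_z (r : ℝ) : HasDerivAt z (14 * r) r := by
  unfold z
  have h : HasDerivAt (fun r : ℝ => 1 + 7 * r ^ 2) (7 * (2 * r)) r := by
    simpa using ((hasDerivAt_pow 2 r).const_mul (7 : ℝ)).const_add 1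
  rw [show 14 * r = 7 * (2 * r) by ring]
  exact h

/-- polynomial with `m` coefficients -/
noncomputable def ps (c : ℕ → ℝ) (m : ℕ) (w : ℝ) : ℝ := ∑ k ∈ range m, c k * w ^ k

/-- the basic quotients -/
noncomputable def F (c : ℕ → ℝ) (m e : ℕ) (r : ℝ) : ℝ := ps c m (z r) / z r ^ e

theorem hasDerivAt_ps (c : ℕ → ℝ) (m : ℕ) (w : ℝ) :
    HasDerivAt (ps c m) (∑ k ∈ range m, c k * (k * w ^ (k - 1))) w := by
  unfold ps
  exact HasDerivAt.fun_sum fun k _ => (hasDerivAt_pow k w).const_mul (c k)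

theorem hasDerivAt_F (c : ℕ → ℝ) (m e : ℕ) (r : ℝ) :
    HasDerivAt (F c m e) (14 * r * F (fun k => ((k : ℝ) - e) * c k) m (e + 1) r) r := by
  have hz := hasDerivAt_z r
  have hz0 : z r ≠ 0 := (z_pos r).ne'
  have h1 : HasDerivAt (fun r => ps c m (z r)) _ r := (hasDerivAt_ps c m (z r)).comp r hz
  have h2 : HasDerivAt (fun r => z r ^ e) _ r := hz.pow e
  have h3 := h1.div h2 (pow_ne_zero e hz0)
  have h4 : HasDerivAt (F c m e) _ r := h3
  convert h4 using 1
  unfold F ps
  have e1 : z r ^ (e + 1) * z r ^ e ≠ 0 := by positivity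
  have key : ∀ k : ℕ, (k : ℝ) * z r ^ (k - 1) * z r = k * z r ^ k := by
    intro k
    rcases k with _ | k
    · simp
    · simp [pow_succ]; ring
  have key2 : (e : ℝ) * z r ^ (e - 1) * z r = e * z r ^ e := key e
  have s1 : (∑ k ∈ range m, c k * (k * z r ^ (k - 1))) * z r = ∑ k ∈ range m, c k * (k * z r ^ k) := by
    rw [Finset.sum_mul]
    refine Finset.sum_congr rfl fun k _ => ?_
    rw [← key k]; ring
  have s2 : ∑ k ∈ range m, ((k : ℝ) - e) * c k * z r ^ k =
      (∑ k ∈ range m, c k * (k * z r ^ (k - 1))) * z r - e * ∑ k ∈ range m, c k * z r ^ k := by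
    rw [s1, Finset.mul_sum, ← Finset.sum_sub_distrib]
    refine Finset.sum_congr rfl fun k _ => ?_
    ring
  rw [s2]
  set A := ∑ k ∈ range m, c k * (k * z r ^ (k - 1))
  set B := ∑ k ∈ range m, c k * z r ^ k
  rw [pow_succ, ← mul_div_assoc, div_eq_div_iff (by positivity) (by positivity)]
  linear_combination (14 * r * B * z r ^ e) * key2

noncomputable def cu (k : ℕ) : ℝ := ([3963617280, -7541882880, 5053480960, -181534720, -800194560, 2297153408, -738157808, 87982644, -3906560, -35200, 6600] : List ℝ).getD k 0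

noncomputable def cv (k : ℕ) : ℝ := ([4087480320, -7777566720, 5217484800, -202752000, -800194560, 2275325448, -750975753, 91987764, -4241160, -25575, 6600] : List ℝ).getD k 0

noncomputable def ck (k : ℕ) : ℝ := ([-208089907200, 420033331200, -286935613440, 60691169280, 6901104640, -881704960, -800194560, 51549908, 72709207, 16938804, -5246360, 282425, 6600] : List ℝ).getD k 0

theorem posM1_0 (w : ℝ) (h1 : 1 ≤ w) (h2 : w ≤ 8) :
    132 ≤ 495452160 + (-880803840)*w + 521584640*w^2 + 42506240*w^3 + (-94711040)*w^4 + 275305296*w^5 + (-57856564)*w^6 + 3765760*w^7 + (-17600)*w^8 + (-6600)*w^9 := by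
  have key : 495452160 + (-880803840)*w + 521584640*w^2 + 42506240*w^3 + (-94711040)*w^4 + 275305296*w^5 + (-57856564)*w^6 + 3765760*w^7 + (-17600)*w^8 + (-6600)*w^9 - 132 = (305218320/40353607)*(w - 1)^0*(8 - w)^9 + (9513075392/40353607)*(w - 1)^1*(8 - w)^8 + (165291960436/40353607)*(w - 1)^2*(8 - w)^7 + (199004701348/5764801)*(w - 1)^3*(8 - w)^6 + (955253808296/5764801)*(w - 1)^4*(8 - w)^5 + (2541058141752/5764801)*(w - 1)^5*(8 - w)^4 + (3290813028816/5764801)*(w - 1)^6*(8 - w)^3 + (14360294124912/40353607)*(w - 1)^7*(8 - w)^2 + (4159881018204/40353607)*(w - 1)^8*(8 - w)^1 + (231365148540/40353607)*(w - 1)^9*(8 - w)^0 := by ring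
  have hp : 0 ≤ w - 1 := by linarith
  have hq : 0 ≤ 8 - w := by linarith
  have h3 : 0 ≤ (305218320/40353607)*(w - 1)^0*(8 - w)^9 + (9513075392/40353607)*(w - 1)^1*(8 - w)^8 + (165291960436/40353607)*(w - 1)^2*(8 - w)^7 + (199004701348/5764801)*(w - 1)^3*(8 - w)^6 + (955253808296/5764801)*(w - 1)^4*(8 - w)^5 + (2541058141752/5764801)*(w - 1)^5*(8 - w)^4 + (3290813028816/5764801)*(w - 1)^6*(8 - w)^3 + (14360294124912/40353607)*(w - 1)^7*(8 - w)^2 + (4159881018204/40353607)*(w - 1)^8*(8 - w)^1 + (231365148540/40353607)*(w - 1)^9*(8 - w)^0 := by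
    generalize w - 1 = p at hp
    generalize 8 - w = q at hq
    positivity
  linarith

theorem posM1 (w : ℝ) (h1 : 1 ≤ w) (h2 : w ≤ 8) :
    132 ≤ 495452160 + (-880803840)*w + 521584640*w^2 + 42506240*w^3 + (-94711040)*w^4 + 275305296*w^5 + (-57856564)*w^6 + 3765760*w^7 + (-17600)*w^8 + (-6600)*w^9 := by
  exact posM1_0 w h1 h2

theorem posM2_0 (w : ℝ) (h1 : 1 ≤ w) (h2 : w ≤ 8) :
    132 ≤ 510935040 + (-908328960)*w + 538644480*w^2 + 41986560*w^3 + (-94776000)*w^4 + 272568681*w^5 + (-59800884)*w^6 + 4023360*w^7 + (-27225)*w^8 + (-6600)*w^9 := by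
  have key : 510935040 + (-908328960)*w + 538644480*w^2 + 41986560*w^3 + (-94776000)*w^4 + 272568681*w^5 + (-59800884)*w^6 + 4023360*w^7 + (-27225)*w^8 + (-6600)*w^9 - 132 = (305218320/40353607)*(w - 1)^0*(8 - w)^9 + (9381145587/40353607)*(w - 1)^1*(8 - w)^8 + (162458811306/40353607)*(w - 1)^2*(8 - w)^7 + (193830073008/5764801)*(w - 1)^3*(8 - w)^6 + (919792336551/5764801)*(w - 1)^4*(8 - w)^5 + (2405637584592/5764801)*(w - 1)^5*(8 - w)^4 + (3006461967696/5764801)*(w - 1)^6*(8 - w)^3 + (12230547964272/40353607)*(w - 1)^7*(8 - w)^2 + (3067092896604/40353607)*(w - 1)^8*(8 - w)^1 + (11100536700/40353607)*(w - 1)^9*(8 - w)^0 := by ring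
  have hp : 0 ≤ w - 1 := by linarith
  have hq : 0 ≤ 8 - w := by linarith
  have h3 : 0 ≤ (305218320/40353607)*(w - 1)^0*(8 - w)^9 + (9381145587/40353607)*(w - 1)^1*(8 - w)^8 + (162458811306/40353607)*(w - 1)^2*(8 - w)^7 + (193830073008/5764801)*(w - 1)^3*(8 - w)^6 + (919792336551/5764801)*(w - 1)^4*(8 - w)^5 + (2405637584592/5764801)*(w - 1)^5*(8 - w)^4 + (3006461967696/5764801)*(w - 1)^6*(8 - w)^3 + (12230547964272/40353607)*(w - 1)^7*(8 - w)^2 + (3067092896604/40353607)*(w - 1)^8*(8 - w)^1 + (11100536700/40353607)*(w - 1)^9*(8 - w)^0 := by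
    generalize w - 1 = p at hp
    generalize 8 - w = q at hq
    positivity
  linarith

theorem posM2 (w : ℝ) (h1 : 1 ≤ w) (h2 : w ≤ 8) :
    132 ≤ 510935040 + (-908328960)*w + 538644480*w^2 + 41986560*w^3 + (-94776000)*w^4 + 272568681*w^5 + (-59800884)*w^6 + 4023360*w^7 + (-27225)*w^8 + (-6600)*w^9 := by
  exact posM2_0 w h1 h2

theorem posQ_0 (w : ℝ) (h1 : 1 ≤ w) (h2 : w ≤ 15/8) :
    0 ≤ 1456629350400 + (-2520199987200)*w + 1434678067200*w^2 + (-242764677120)*w^3 + (-20703313920)*w^4 + 1763409920*w^5 + 800194560*w^6 + 72709207*w^8 + 33877608*w^9 + (-15739080)*w^10 + 1129700*w^11 + 33000*w^12 := by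
  have key : 1456629350400 + (-2520199987200)*w + 1434678067200*w^2 + (-242764677120)*w^3 + (-20703313920)*w^4 + 1763409920*w^5 + 800194560*w^6 + 72709207*w^8 + 33877608*w^9 + (-15739080)*w^10 + 1129700*w^11 + 33000*w^12 - 0 = (22097429785267404800/40353607)*(w - 1)^0*(15/8 - w)^12 + (186704326465823965184/40353607)*(w - 1)^1*(15/8 - w)^11 + (4826941162885547556864/282475249)*(w - 1)^2*(15/8 - w)^10 + (10148909774221862764544/282475249)*(w - 1)^3*(15/8 - w)^9 + (13209130387276235276288/282475249)*(w - 1)^4*(15/8 - w)^8 + (10774650001155403284480/282475249)*(w - 1)^5*(15/8 - w)^7 + (756447921977525534720/40353607)*(w - 1)^6*(15/8 - w)^6 + (31582375136555171840/5764801)*(w - 1)^7*(15/8 - w)^5 + (86942666686984704000/40353607)*(w - 1)^8*(15/8 - w)^4 + (571332067336054609920/282475249)*(w - 1)^9*(15/8 - w)^3 + (343287643115248262400/282475249)*(w - 1)^10*(15/8 - w)^2 + (99772773672731954400/282475249)*(w - 1)^11*(15/8 - w)^1 + (11355970234232406600/282475249)*(w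 - 1)^12*(15/8 - w)^0 := by ring
  have hp : 0 ≤ w - 1 := by linarith
  have hq : 0 ≤ 15/8 - w := by linarith
  have h3 : 0 ≤ (22097429785267404800/40353607)*(w - 1)^0*(15/8 - w)^12 + (186704326465823965184/40353607)*(w - 1)^1*(15/8 - w)^11 + (4826941162885547556864/282475249)*(w - 1)^2*(15/8 - w)^10 + (10148909774221862764544/282475249)*(w - 1)^3*(15/8 - w)^9 + (13209130387276235276288/282475249)*(w - 1)^4*(15/8 - w)^8 + (10774650001155403284480/282475249)*(w - 1)^5*(15/8 - w)^7 + (756447921977525534720/40353607)*(w - 1)^6*(15/8 - w)^6 + (31582375136555171840/5764801)*(w - 1)^7*(15/8 - w)^5 + (86942666686984704000/40353607)*(w - 1)^8*(15/8 - w)^4 + (571332067336054609920/282475249)*(w - 1)^9*(15/8 - w)^3 + (343287643115248262400/282475249)*(w - 1)^10*(15/8 - w)^2 + (99772773672731954400/282475249)*(w - 1)^11*(15/8 - w)^1 + (11355970234232406600/282475249)*(w - 1)^12*(15/8 - w)^0 := by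
    generalize w - 1 = p at hp
    generalize 15/8 - w = q at hq
    positivity
  linarith

theorem posQ_1 (w : ℝ) (h1 : 15/8 ≤ w) (h2 : w ≤ 11/4) :
    0 ≤ 1456629350400 + (-2520199987200)*w + 1434678067200*w^2 + (-242764677120)*w^3 + (-20703313920)*w^4 + 1763409920*w^5 + 800194560*w^6 + 72709207*w^8 + 33877608*w^9 + (-15739080)*w^10 + 1129700*w^11 + 33000*w^12 := by
  have key : 1456629350400 + (-2520199987200)*w + 1434678067200*w^2 + (-242764677120)*w^3 + (-20703313920)*w^4 + 1763409920*w^5 + 800194560*w^6 + 72709207*w^8 + 33877608*w^9 + (-15739080)*w^10 + 1129700*w^11 + 33000*w^12 - 0 = (11355970234232406600/282475249)*(w - 15/8)^0*(11/4 - w)^12 + (24681501706977972000/40353607)*(w - 15/8)^1*(11/4 - w)^11 + (1146262764152500608000/282475249)*(w - 15/8)^2*(11/4 - w)^10 + (4330918199216916286080/282475249)*(w - 15/8)^3*(11/4 - w)^9 + (10355620222619077645440/282475249)*(w - 15/8)^4*(11/4 - w)^8 + (16479826605858945141760/282475249)*(w - 15/8)^5*(11/4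 - w)^7 + (363468942940116029440/5764801)*(w - 15/8)^6*(11/4 - w)^6 + (13033694955361604259840/282475249)*(w - 15/8)^7*(11/4 - w)^5 + (2620863671138408448/117649)*(w - 15/8)^8*(11/4 - w)^4 + (1899774566386951741440/282475249)*(w - 15/8)^9*(11/4 - w)^3 + (333551156393553887232/282475249)*(w - 15/8)^10*(11/4 - w)^2 + (36283763112052555776/282475249)*(w - 15/8)^11*(11/4 - w)^1 + (3806619338630332416/282475249)*(w - 15/8)^12*(11/4 - w)^0 := by ring
  have hp : 0 ≤ w - 15/8 := by linarith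
  have hq : 0 ≤ 11/4 - w := by linarith
  have h3 : 0 ≤ (11355970234232406600/282475249)*(w - 15/8)^0*(11/4 - w)^12 + (24681501706977972000/40353607)*(w - 15/8)^1*(11/4 - w)^11 + (1146262764152500608000/282475249)*(w - 15/8)^2*(11/4 - w)^10 + (4330918199216916286080/282475249)*(w - 15/8)^3*(11/4 - w)^9 + (10355620222619077645440/282475249)*(w - 15/8)^4*(11/4 - w)^8 + (16479826605858945141760/282475249)*(w - 15/8)^5*(11/4 - w)^7 + (363468942940116029440/5764801)*(w - 15/8)^6*(11/4 - w)^6 + (13033694955361604259840/282475249)*(w - 15/8)^7*(11/4 - w)^5 + (2620863671138408448/117649)*(w - 15/8)^8*(11/4 - w)^4 + (1899774566386951741440/282475249)*(w - 15/8)^9*(11/4 - w)^3 + (333551156393553887232/282475249)*(w - 15/8)^10*(11/4 - w)^2 + (36283763112052555776/282475249)*(w - 15/8)^11*(11/4 - w)^1 + (3806619338630332416/282475249)*(w - 15/8)^12*(11/4 - w)^0 := by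
    generalize w - 15/8 = p at hp
    generalize 11/4 - w = q at hq
    positivity
  linarith

theorem posQ_2 (w : ℝ) (h1 : 11/4 ≤ w) (h2 : w ≤ 9/2) :
    0 ≤ 1456629350400 + (-2520199987200)*w + 1434678067200*w^2 + (-242764677120)*w^3 + (-20703313920)*w^4 + 1763409920*w^5 + 800194560*w^6 + 72709207*w^8 + 33877608*w^9 + (-15739080)*w^10 + 1129700*w^11 + 33000*w^12 := by
  have key : 1456629350400 + (-2520199987200)*w + 1434678067200*w^2 + (-242764677120)*w^3 + (-20703313920)*w^4 + 1763409920*w^5 + 800194560*w^6 + 72709207*w^8 + 33877608*w^9 + (-15739080)*w^10 + 1129700*w^11 + 33000*w^12 - 0 = (929350424470296/282475249)*(w - 11/4)^0*(9/2 - w)^12 + (2248562010553392/40353607)*(w - 11/4)^1*(9/2 - w)^11 + (293117223468057696/282475249)*(w - 11/4)^2*(9/2 - w)^10 + (2812093658853270720/282475249)*(w - 11/4)^3*(9/2 - w)^9 + (14653988980083917568/282475249)*(w - 11/4)^4*(9/2 - w)^8 + (46582079748508819968/282475249)*(w - 11/4)^5*(9/2 - w)^7 + (1972582009788513280/5764801)*(w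 - 11/4)^6*(9/2 - w)^6 + (135292702066761521152/282475249)*(w - 11/4)^7*(9/2 - w)^5 + (2627013165897431040/5764801)*(w - 11/4)^8*(9/2 - w)^4 + (81925785402335268864/282475249)*(w - 11/4)^9*(9/2 - w)^3 + (33279387660671508480/282475249)*(w - 11/4)^10*(9/2 - w)^2 + (7769654140832169984/282475249)*(w - 11/4)^11*(9/2 - w)^1 + (790477449788915712/282475249)*(w - 11/4)^12*(9/2 - w)^0 := by ring
  have hp : 0 ≤ w - 11/4 := by linarith
  have hq : 0 ≤ 9/2 - w := by linarith
  have h3 : 0 ≤ (929350424470296/282475249)*(w - 11/4)^0*(9/2 - w)^12 + (2248562010553392/40353607)*(w - 11/4)^1*(9/2 - w)^11 + (293117223468057696/282475249)*(w - 11/4)^2*(9/2 - w)^10 + (2812093658853270720/282475249)*(w - 11/4)^3*(9/2 - w)^9 + (14653988980083917568/282475249)*(w - 11/4)^4*(9/2 - w)^8 + (46582079748508819968/282475249)*(w - 11/4)^5*(9/2 - w)^7 + (1972582009788513280/5764801)*(w - 11/4)^6*(9/2 - w)^6 + (135292702066761521152/282475249)*(w - 11/4)^7*(9/2 - w)^5 + (2627013165897431040/5764801)*(w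 - 11/4)^8*(9/2 - w)^4 + (81925785402335268864/282475249)*(w - 11/4)^9*(9/2 - w)^3 + (33279387660671508480/282475249)*(w - 11/4)^10*(9/2 - w)^2 + (7769654140832169984/282475249)*(w - 11/4)^11*(9/2 - w)^1 + (790477449788915712/282475249)*(w - 11/4)^12*(9/2 - w)^0 := by
    generalize w - 11/4 = p at hp
    generalize 9/2 - w = q at hq
    positivity
  linarith

theorem posQ_3 (w : ℝ) (h1 : 9/2 ≤ w) (h2 : w ≤ 25/4) :
    0 ≤ 1456629350400 + (-2520199987200)*w + 1434678067200*w^2 + (-242764677120)*w^3 + (-20703313920)*w^4 + 1763409920*w^5 + 800194560*w^6 + 72709207*w^8 + 33877608*w^9 + (-15739080)*w^10 + 1129700*w^11 + 33000*w^12 := by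
  have key : 1456629350400 + (-2520199987200)*w + 1434678067200*w^2 + (-242764677120)*w^3 + (-20703313920)*w^4 + 1763409920*w^5 + 800194560*w^6 + 72709207*w^8 + 33877608*w^9 + (-15739080)*w^10 + 1129700*w^11 + 33000*w^12 - 0 = (790477449788915712/282475249)*(w - 9/2)^0*(25/4 - w)^12 + (11201804654101807104/282475249)*(w - 9/2)^1*(25/4 - w)^11 + (71033043306637516800/282475249)*(w - 9/2)^2*(25/4 - w)^10 + (265578368456509157376/282475249)*(w - 9/2)^3*(25/4 - w)^9 + (648987223237558867968/282475249)*(w - 9/2)^4*(25/4 - w)^8 + (1085271300161616128000/282475249)*(w - 9/2)^5*(25/4 - w)^7 + (180475620875937674240/40353607)*(w - 9/2)^6*(25/4 - w)^6 + (1021809224402234887680/282475249)*(w - 9/2)^7*(25/4 - w)^5 + (566065211740823125760/282475249)*(w - 9/2)^8*(25/4 - w)^4 + (212599679151152816960/282475249)*(w - 9/2)^9*(25/4 - w)^3 + (56884705957487071200/282475249)*(w - 9/2)^10*(25/4 - w)^2 + (12551326122703991600/282475249)*(w - 9/2)^11*(25/4 - w)^1 + (1921704446142788600/282475249)*(w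 - 9/2)^12*(25/4 - w)^0 := by ring
  have hp : 0 ≤ w - 9/2 := by linarith
  have hq : 0 ≤ 25/4 - w := by linarith
  have h3 : 0 ≤ (790477449788915712/282475249)*(w - 9/2)^0*(25/4 - w)^12 + (11201804654101807104/282475249)*(w - 9/2)^1*(25/4 - w)^11 + (71033043306637516800/282475249)*(w - 9/2)^2*(25/4 - w)^10 + (265578368456509157376/282475249)*(w - 9/2)^3*(25/4 - w)^9 + (648987223237558867968/282475249)*(w - 9/2)^4*(25/4 - w)^8 + (1085271300161616128000/282475249)*(w - 9/2)^5*(25/4 - w)^7 + (180475620875937674240/40353607)*(w - 9/2)^6*(25/4 - w)^6 + (1021809224402234887680/282475249)*(w - 9/2)^7*(25/4 - w)^5 + (566065211740823125760/282475249)*(w - 9/2)^8*(25/4 - w)^4 + (212599679151152816960/282475249)*(w - 9/2)^9*(25/4 - w)^3 + (56884705957487071200/282475249)*(w - 9/2)^10*(25/4 - w)^2 + (12551326122703991600/282475249)*(w - 9/2)^11*(25/4 - w)^1 + (1921704446142788600/282475249)*(w - 9/2)^12*(25/4 - w)^0 := by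
    generalize w - 9/2 = p at hp
    generalize 25/4 - w = q at hq
    positivity
  linarith

theorem posQ_4 (w : ℝ) (h1 : 25/4 ≤ w) (h2 : w ≤ 8) :
    0 ≤ 1456629350400 + (-2520199987200)*w + 1434678067200*w^2 + (-242764677120)*w^3 + (-20703313920)*w^4 + 1763409920*w^5 + 800194560*w^6 + 72709207*w^8 + 33877608*w^9 + (-15739080)*w^10 + 1129700*w^11 + 33000*w^12 := by
  have key : 1456629350400 + (-2520199987200)*w + 1434678067200*w^2 + (-242764677120)*w^3 + (-20703313920)*w^4 + 1763409920*w^5 + 800194560*w^6 + 72709207*w^8 + 33877608*w^9 + (-15739080)*w^10 + 1129700*w^11 + 33000*w^12 - 0 = (1921704446142788600/282475249)*(w - 25/4)^0*(8 - w)^12 + (33569580584722934800/282475249)*(w - 25/4)^1*(8 - w)^11 + (288085505039695446400/282475249)*(w - 25/4)^2*(8 - w)^10 + (1546002518215018391040/282475249)*(w - 25/4)^3*(8 - w)^9 + (5630666790849362036480/282475249)*(w - 25/4)^4*(8 - w)^8 + (14462873640038276464640/282475249)*(w - 25/4)^5*(8 - w)^7 + (3815148610871209492480/40353607)*(w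 - 25/4)^6*(8 - w)^6 + (35654335672029554933760/282475249)*(w - 25/4)^7*(8 - w)^5 + (34161403029986998222848/282475249)*(w - 25/4)^8*(8 - w)^4 + (22929838347243988451328/282475249)*(w - 25/4)^9*(8 - w)^3 + (10247276664676895686656/282475249)*(w - 25/4)^10*(8 - w)^2 + (2741060585773942702080/282475249)*(w - 25/4)^11*(8 - w)^1 + (332286382109626466304/282475249)*(w - 25/4)^12*(8 - w)^0 := by ring
  have hp : 0 ≤ w - 25/4 := by linarith
  have hq : 0 ≤ 8 - w := by linarith
  have h3 : 0 ≤ (1921704446142788600/282475249)*(w - 25/4)^0*(8 - w)^12 + (33569580584722934800/282475249)*(w - 25/4)^1*(8 - w)^11 + (288085505039695446400/282475249)*(w - 25/4)^2*(8 - w)^10 + (1546002518215018391040/282475249)*(w - 25/4)^3*(8 - w)^9 + (5630666790849362036480/282475249)*(w - 25/4)^4*(8 - w)^8 + (14462873640038276464640/282475249)*(w - 25/4)^5*(8 - w)^7 + (3815148610871209492480/40353607)*(w - 25/4)^6*(8 - w)^6 + (35654335672029554933760/282475249)*(w - 25/4)^7*(8 - w)^5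 + (34161403029986998222848/282475249)*(w - 25/4)^8*(8 - w)^4 + (22929838347243988451328/282475249)*(w - 25/4)^9*(8 - w)^3 + (10247276664676895686656/282475249)*(w - 25/4)^10*(8 - w)^2 + (2741060585773942702080/282475249)*(w - 25/4)^11*(8 - w)^1 + (332286382109626466304/282475249)*(w - 25/4)^12*(8 - w)^0 := by
    generalize w - 25/4 = p at hp
    generalize 8 - w = q at hq
    positivity
  linarith

theorem posQ (w : ℝ) (h1 : 1 ≤ w) (h2 : w ≤ 8) :
    0 ≤ 1456629350400 + (-2520199987200)*w + 1434678067200*w^2 + (-242764677120)*w^3 + (-20703313920)*w^4 + 1763409920*w^5 + 800194560*w^6 + 72709207*w^8 + 33877608*w^9 + (-15739080)*w^10 + 1129700*w^11 + 33000*w^12 := by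
  rcases le_total w (15/8) with h | h
  · exact posQ_0 w h1 h
  have h' := h
  rcases le_total w (11/4) with h | h
  · exact posQ_1 w h' h
  have h' := h
  rcases le_total w (9/2) with h | h
  · exact posQ_2 w h' h
  have h' := h
  rcases le_total w (25/4) with h | h
  · exact posQ_3 w h' h
  have h' := h
  exact posQ_4 w h' h2

theorem ps_cu (w : ℝ) : ps cu 11 w = (8 - w) * (495452160 + (-880803840)*w + 521584640*w^2 + 42506240*w^3 + (-94711040)*w^4 + 275305296*w^5 + (-57856564)*w^6 + 3765760*w^7 + (-17600)*w^8 + (-6600)*w^9) := by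
  simp only [ps, cu, Finset.sum_range_succ, Finset.sum_range_zero, List.getD_cons_zero,
    List.getD_cons_succ]
  ring

theorem ps_cv (w : ℝ) : ps cv 11 w = (8 - w) * (510935040 + (-908328960)*w + 538644480*w^2 + 41986560*w^3 + (-94776000)*w^4 + 272568681*w^5 + (-59800884)*w^6 + 4023360*w^7 + (-27225)*w^8 + (-6600)*w^9) := by
  simp only [ps, cv, Finset.sum_range_succ, Finset.sum_range_zero, List.getD_cons_zero,
    List.getD_cons_succ]
  ring

theorem ps_ck (w : ℝ) : ps (fun k => ((k : ℝ) - (7 : ℕ)) * ck k) 13 w = 1456629350400 + (-2520199987200)*w + 1434678067200*w^2 + (-242764677120)*w^3 + (-20703313920)*w^4 + 1763409920*w^5 + 800194560*w^6 + 72709207*w^8 + 33877608*w^9 + (-15739080)*w^10 + 1129700*w^11 + 33000*w^12 := by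
  simp only [ps, ck, Finset.sum_range_succ, Finset.sum_range_zero, List.getD_cons_zero,
    List.getD_cons_succ]
  push_cast
  ring

/-- the equation for a solution `F c 11 5` -/
theorem ode_of (c : ℕ → ℝ) (lam : ℝ)
    (h : ∀ w : ℝ, 42 * w * ps (fun k => ((k : ℝ) - (5 : ℕ)) * c k) 11 w
      + 28 * (w - 1) * ps (fun k => ((k : ℝ) - (6 : ℕ)) * (((k : ℝ) - (5 : ℕ)) * c k)) 11 w
      + lam * (w ^ 2 * ps c 11 w - ps ck 13 w) = 0) (r : ℝ) (hr : 0 < r) :
    deriv (deriv (F c 11 5)) r + (3 - 1) / r * deriv (F c 11 5) r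
      + lam * (F c 11 5 r + -F ck 13 7 r) = 0 := by
  have d1 : deriv (F c 11 5) =
      fun r => 14 * r * F (fun k => ((k : ℝ) - (5 : ℕ)) * c k) 11 6 r := by
    funext r
    exact (hasDerivAt_F c 11 5 r).deriv
  have d2 : HasDerivAt (fun r => 14 * r * F (fun k => ((k : ℝ) - (5 : ℕ)) * c k) 11 6 r)
      (14 * F (fun k => ((k : ℝ) - (5 : ℕ)) * c k) 11 6 r + 14 * r * (14 * r *
        F (fun k => ((k : ℝ) - (6 : ℕ)) * (((k : ℝ) - (5 : ℕ)) * c k)) 11 7 r)) r := by
    have ha : HasDerivAt (fun r : ℝ => 14 * r) 14 r := by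
      simpa using (hasDerivAt_id r).const_mul (14 : ℝ)
    exact ha.mul (hasDerivAt_F (fun k => ((k : ℝ) - (5 : ℕ)) * c k) 11 6 r)
  rw [d1, d2.deriv]
  have hz := z_pos r
  have hzr : z r = 1 + 7 * r ^ 2 := rfl
  have h' := h (z r)
  unfold F
  set A := ps (fun k => ((k : ℝ) - (5 : ℕ)) * c k) 11 (z r)
  set B := ps (fun k => ((k : ℝ) - (6 : ℕ)) * (((k : ℝ) - (5 : ℕ)) * c k)) 11 (z r)
  set U := ps c 11 (z r)
  set V := ps ck 13 (z r)
  have h28 : 28 * (z r - 1) = 196 * r ^ 2 := by rw [hzr]; ring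
  rw [h28] at h'
  have : 14 * (A / z r ^ 6) + 14 * r * (14 * r * (B / z r ^ 7)) + (3 - 1) / r * (14 * r * (A / z r ^ 6))
      + lam * (U / z r ^ 5 + -(V / z r ^ 7)) =
      (42 * z r * A + 196 * r ^ 2 * B + lam * (z r ^ 2 * U - V)) / z r ^ 7 := by
    field_simp
    ring
  rw [this, h', zero_div]

theorem contDiff_F (c : ℕ → ℝ) (m e : ℕ) (n : WithTop ℕ∞) : ContDiff ℝ n (F c m e) := by
  unfold F ps z
  apply ContDiff.div
  · fun_prop
  · fun_prop
  · intro r
    positivity

theorem sol_of (c : ℕ → ℝ) (lam : ℝ)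
    (h : ∀ w : ℝ, 42 * w * ps (fun k => ((k : ℝ) - (5 : ℕ)) * c k) 11 w
      + 28 * (w - 1) * ps (fun k => ((k : ℝ) - (6 : ℕ)) * (((k : ℝ) - (5 : ℕ)) * c k)) 11 w
      + lam * (w ^ 2 * ps c 11 w - ps ck 13 w) = 0)
    (M : ℝ → ℝ) (hM : ∀ w, ps c 11 w = (8 - w) * M w) (hpos : ∀ w, 1 ≤ w → w ≤ 8 → 0 < M w) :
    IsPositiveSolution 3 (fun r u => u + -F ck 13 7 r) lam (F c 11 5) := by
  refine ⟨contDiff_F c 11 5 2, ?_, ?_, ?_, ?_⟩
  · rw [(hasDerivAt_F c 11 5 0).deriv]; ring
  · have : z 1 = 8 := by unfold z; norm_num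
    unfold F
    rw [this, hM]; norm_num
  · intro r h0 h1
    have hz1 : 1 ≤ z r := by unfold z; nlinarith
    have hz8 : z r < 8 := by unfold z; nlinarith
    unfold F
    rw [hM]
    have := hpos (z r) hz1 hz8.le
    have h8 : 0 < 8 - z r := by linarith
    have := z_pos r
    positivity
  · intro r h0 _
    exact ode_of c lam h r h0

theorem deriv_K (r : ℝ) (h0 : 0 ≤ r) (h1 : r ≤ 1) : deriv (fun r => -F ck 13 7 r) r ≤ 0 := by
  have hd : HasDerivAt (fun r => -F ck 13 7 r) _ r := (hasDerivAt_F ck 13 7 r).neg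
  rw [hd.deriv]
  have hz1 : 1 ≤ z r := by unfold z; nlinarith
  have hz8 : z r ≤ 8 := by unfold z; nlinarith
  have hz := z_pos r
  unfold F
  rw [ps_ck]
  have := posQ (z r) hz1 hz8
  have h2 : 0 ≤ 14 * r * ((1456629350400 + (-2520199987200)*z r + 1434678067200*z r^2 + (-242764677120)*z r^3 + (-20703313920)*z r^4 + 1763409920*z r^5 + 800194560*z r^6 + 72709207*z r^8 + 33877608*z r^9 + (-15739080)*z r^10 + 1129700*z r^11 + 33000*z r^12) / z r ^ (7 + 1)) := by
    apply mul_nonneg (by linarith)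
    apply div_nonneg this (by positivity)
  linarith

end proofs

/-- There is a smooth nonlinearity `f(r,u) = u + K(r)` with `f_r <= 0` on `[0,1]` such that in
dimension three there are two positive solutions, for two different values of the parameter,
which have the same value at the origin. -/
theorem result :
    ∃ (f : ℝ → ℝ → ℝ) (K : ℝ → ℝ), (∀ r u, f r u = u + K r) ∧
      (∀ m : ℕ, ContDiff ℝ m (fun p : ℝ × ℝ => f p.1 p.2)) ∧
      (∀ r u, 0 ≤ r → r ≤ 1 → deriv (fun s => f s u) r ≤ 0) ∧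
      ∃ (lam₁ lam₂ : ℝ) (u₁ u₂ : ℝ → ℝ), 0 < lam₁ ∧ lam₁ < lam₂ ∧
        IsPositiveSolution 3 f lam₁ u₁ ∧ IsPositiveSolution 3 f lam₂ u₂ ∧ u₁ 0 = u₂ 0 := by
  refine ⟨fun r u => u + -F ck 13 7 r, fun r => -F ck 13 7 r, fun _ _ => rfl, fun m =>
    contDiff_snd.add ((contDiff_F ck 13 7 m).neg.comp contDiff_fst), ?_, 16, 33 / 2,
    F cu 11 5, F cv 11 5, by norm_num, by norm_num, ?_, ?_, ?_⟩
  · intro r u h0 h1
    have := deriv_K r h0 h1
    rwa [deriv_const_add]
  · refine sol_of cu 16 ?_ _ ps_cu (fun w h1 h2 => lt_of_lt_of_le (by norm_num) (posM1 w h1 h2))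
    intro w
    simp only [ps, cu, ck, Finset.sum_range_succ, Finset.sum_range_zero, List.getD_cons_zero,
      List.getD_cons_succ]
    push_cast
    ring
  · refine sol_of cv (33 / 2) ?_ _ ps_cv
      (fun w h1 h2 => lt_of_lt_of_le (by norm_num) (posM2 w h1 h2))
    intro w
    simp only [ps, cv, ck, Finset.sum_range_succ, Finset.sum_range_zero, List.getD_cons_zero,
      List.getD_cons_succ]
    push_cast
    ring
  · have : z 0 = 1 := by unfold z; norm_num
    unfold F
    rw [this]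
    simp only [ps, cu, cv, Finset.sum_range_succ, Finset.sum_range_zero, List.getD_cons_zero,
      List.getD_cons_succ]
    norm_num

end Pool.Agent.Results.MP_eab5ac_an.NotGlobalParameter
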